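import Mathlib
import Pool.Agent.H.MP_c8cc4c_co.Hub.FamB

/-!
# MP_c8cc4c_co, full question, part A: the connecting sets of two regions
-/

open scoped Classical
open Finset

noncomputable section

namespace Pool.Agent.H.MP_c8cc4c_co.Hub

/-- A walk from `K1` to `K2` has a part between them.
Proof. `walk_exit q K2` (start `x ∉ K2`): `W` connected, `x ∈ W`, `b ∈ W`, `a ∈ K2`, `G.Adj b a`, `W` outside `K2`,
`W` in the support of `q`. `b ∉ K1` since `b` is adjacent to `a ∈ K2`. `W` is connected, so there is a walk in `W` from `b`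
to `x ∈ K1`; `walk_exit` for it and `K1`: `W'` connected, `b ∈ W'`, `b' ∈ W'`, `a' ∈ K1`, `G.Adj b' a'`, `W'` outside `K1`,
`W'` in the support of the walk, so in `W`. `σ = W'`. -/
theorem walk_between {V : Type} {G : SimpleGraph V} {x y : V} (q : G.Walk x y) (K1 K2 : Set V)
    (hx : x ∈ K1) (hy : y ∈ K2) (hd : ∀ z ∈ K1, z ∉ K2) (hna : ∀ z ∈ K1, ∀ w ∈ K2, ¬ G.Adj z w) :
    ∃ σ : Finset V, ConnOn G (σ : Set V) ∧ (∀ z ∈ σ, z ∈ q.support ∧ z ∉ K1 ∧ z ∉ K2) ∧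
      (∃ z ∈ σ, ∃ w ∈ K1, G.Adj z w) ∧ ∃ z ∈ σ, ∃ w ∈ K2, G.Adj z w := by
  obtain ⟨W, a, b, h1, h2, h3, h4, h5, h6, -⟩ := walk_exit q K2 (hd x hx) hy
  have hb : b ∉ K1 := fun hb => hna b hb a h4 h5
  obtain ⟨n, p, -, hp⟩ := h1.2 b h3 x h2
  obtain ⟨W', a', b', g1, g2, g3, g4, g5, g6, -⟩ := walk_exit p K1 hb hx
  refine ⟨W', g1, ?_, ⟨b', g3, a', g4, g5⟩, ⟨b, g2, a, h4, h5⟩⟩
  intro z hz
  have hzW : z ∈ W := hp z (g6 z hz).2
  exact ⟨(h6 z hzW).2, (g6 z hz).1, (h6 z hzW).1⟩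

namespace Fam

variable {V : Type} [Fintype V] {R : Rt V} {l c : ℕ} (F : Fam R l c) {h : ℕ} {K K1 K2 : Set V}
  {v : V}

/-- the vertex `w` belongs to `v`: it is `v` or an interior vertex of a path with the end `v` -/
def Bel (v w : V) : Prop := w = v ∨ ∃ u, F.Γ.Adj v u ∧ w ∈ F.Q s(v, u) ∧ w ≠ v ∧ w ≠ u

/-- `w` belongs to few vertices (`ends_card`, and `v = w`) -/
theorem bel_card (w : V) : (univ.filter fun v => F.Bel v w).card ≤ 2 * c + 1 := by
  have h1 : (univ.filter fun v => F.Bel v w) ⊆ insert w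
      (univ.filter fun x => ∃ u, F.Γ.Adj x u ∧ w ∈ F.Q s(x, u) ∧ w ≠ x ∧ w ≠ u) := by
    intro v hv
    rw [Finset.mem_filter] at hv
    rw [Finset.mem_insert, Finset.mem_filter]
    rcases hv.2 with h | h
    · exact Or.inl h.symm
    · exact Or.inr ⟨mem_univ _, h⟩
  refine (Finset.card_le_card h1).trans ((Finset.card_insert_le _ _).trans ?_)
  have := F.ends_card w
  omega

/-- A path from `v` to the region: a small connected set `W` containing `v`, with `a ∈ K` in it or adjacent to it.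
Proof: `v ∈ K`: `W = {v}`, `a = b = v`. Otherwise `exists_exit`, `Exit.card`, `Exit.interior`, `Exit.near`. -/
theorem exists_way (hv : v ∈ F.N K) : ∃ (W : Finset V) (a b : V), ConnOn R.G (W : Set V) ∧ v ∈ W ∧
    b ∈ W ∧ a ∈ K ∧ (b = a ∨ R.G.Adj b a) ∧ W.card ≤ l + 1 ∧
    (∀ w ∈ W, F.Bel v w ∧ Near R.G Set.univ l v w) ∧ (v ∉ K → ∀ w ∈ W, w ∉ K) := by
  by_cases hvK : v ∈ K
  · refine ⟨{v}, v, v, ?_, by simp, by simp, hvK, Or.inl rfl, by simp, ?_, fun h => absurd hvK h⟩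
    · rw [Finset.coe_singleton]
      exact connOn_singleton v
    · intro w hw
      rw [Finset.mem_singleton] at hw
      subst hw
      exact ⟨Or.inl rfl, near_mono (near_refl (Set.mem_univ _)) (Nat.zero_le _) subset_rfl⟩
  · obtain ⟨W, a, b, hE⟩ := F.exists_exit hv hvK
    refine ⟨W, a, b, hE.conn, hE.vW, hE.bW, hE.aK, Or.inr hE.adj, ?_, ?_, fun _ => hE.disj⟩
    · have := hE.card
      omega
    · intro w hw
      refine ⟨?_, hE.near hw⟩
      by_cases hwv : w = v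
      · exact Or.inl hwv
      · exact Or.inr (hE.interior hw hwv)

/-- The connecting set of two regions at a vertex `v` which sees both.
Proof. Let `W1, a1, b1` and `W2, a2, b2` be from `exists_way` for `K1` and `K2`. `A = W1 ∪ W2 ∪ {a1} ∪ {a2}`: there is a
walk in `A` from `a1` to `a2` (`a1 - b1`, in `W1` from `b1` to `v`, in `W2` from `v` to `b2`, `b2 - a2`).
`walk_between` (`K1`, `K2` disjoint by `Core.eq`, not adjacent by `Core.not_adj`) gives `σ` in the support, outside `K1`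
and `K2`, so `σ ⊆ W1 ∪ W2`. Height: `F.N_near` for `v` and `near_f` twice: `h + 1 ≤ f a ≤ f v + l ≤ f w + 2 l`.
`w ≠ o`: if `w ≠ v` then `w` is on a path (`Q_ne_o`); if `w = v` then `v ∉ K1`, so `v` is the end of an edge and on its path. -/
theorem exists_sigma (hK1 : R.Core h K1) (hK2 : R.Core h K2) (hne : K1 ≠ K2) (h1 : v ∈ F.N K1)
    (h2 : v ∈ F.N K2) : ∃ σ : Finset V, ConnOn R.G (σ : Set V) ∧ (∀ w ∈ σ, w ∉ K1 ∧ w ∉ K2) ∧
      (∃ z ∈ σ, ∃ w ∈ K1, R.G.Adj z w) ∧ (∃ z ∈ σ, ∃ w ∈ K2, R.G.Adj z w) ∧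
      σ.card ≤ 2 * l + 2 ∧ ∀ w ∈ σ, F.Bel v w ∧ h + 1 ≤ R.f w + 2 * l ∧ w ≠ R.o := by
  obtain ⟨W1, a1, b1, c1, v1, e1, k1, j1, n1, q1, -⟩ := F.exists_way h1
  obtain ⟨W2, a2, b2, c2, v2, e2, k2, j2, n2, q2, -⟩ := F.exists_way h2
  have hA : ∃ n, Near R.G ((W1 : Set V) ∪ W2 ∪ {a1, a2}) n a1 a2 := by
    have s1 : ∃ n, Near R.G ((W1 : Set V) ∪ W2 ∪ {a1, a2}) n b1 a1 := by
      rcases j1 with rfl | j1
      · exact ⟨0, near_refl (Or.inl (Or.inl e1))⟩
      · exact ⟨1, near_adj (Or.inl (Or.inl e1)) (Or.inr (Or.inl rfl)) j1⟩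
    have s2 : ∃ n, Near R.G ((W1 : Set V) ∪ W2 ∪ {a1, a2}) n b2 a2 := by
      rcases j2 with rfl | j2
      · exact ⟨0, near_refl (Or.inl (Or.inr e2))⟩
      · exact ⟨1, near_adj (Or.inl (Or.inr e2)) (Or.inr (Or.inr rfl)) j2⟩
    obtain ⟨m1, s1⟩ := s1
    obtain ⟨m2, s2⟩ := s2
    obtain ⟨m3, s3⟩ := c1.2 b1 e1 v v1
    obtain ⟨m4, s4⟩ := c2.2 v v2 b2 e2
    refine ⟨_, near_trans (near_trans (near_symm s1) (near_mono s3 le_rfl ?_))
      (near_trans (near_mono s4 le_rfl ?_) s2)⟩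
    · intro z hz
      exact Or.inl (Or.inl hz)
    · intro z hz
      exact Or.inl (Or.inr hz)
  obtain ⟨n, q, -, hq⟩ := hA
  have hd : ∀ z ∈ K1, z ∉ K2 := fun z hz hz' => hne (hK1.eq hK2 hz hz')
  obtain ⟨σ, g1, g2, g3, g4⟩ := walk_between q K1 K2 k1 k2 hd
    (fun z hz w hw hzw => hne (hK1.not_adj hK2 hz hw hzw))
  have hsub : ∀ z ∈ σ, z ∈ W1 ∨ z ∈ W2 := by
    intro z hz
    obtain ⟨g5, g6, g7⟩ := g2 z hz
    rcases hq z g5 with (h | h) | h
    · exact Or.inl h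
    · exact Or.inr h
    · rcases h with rfl | h
      · exact absurd k1 g6
      · have h' : z = a2 := h
        subst h'
        exact absurd k2 g7
  have hb : ∀ z ∈ σ, F.Bel v z ∧ Near R.G Set.univ l v z := by
    intro z hz
    rcases hsub z hz with h | h
    · exact q1 z h
    · exact q2 z h
  refine ⟨σ, g1, fun w hw => (g2 w hw).2, g3, g4, ?_, ?_⟩
  · have h3 : σ ⊆ W1 ∪ W2 := by
      intro z hz
      rw [Finset.mem_union]
      exact hsub z hz
    refine (Finset.card_le_card h3).trans ((Finset.card_union_le _ _).trans ?_)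
    omega
  · intro w hw
    obtain ⟨i1, i2⟩ := hb w hw
    refine ⟨i1, ?_, ?_⟩
    · have h3 := F.N_f hK1 h1
      have h4 := R.near_f i2
      omega
    · rcases i1 with rfl | ⟨u, hu, hwu, -, -⟩
      · rcases h1 with h1 | ⟨u, hu, -⟩
        · exact absurd h1 (g2 _ hw).2.1
        · exact F.Q_ne_o hu (F.left_mem hu)
      · exact F.Q_ne_o hu hwu

end Fam

end Pool.Agent.H.MP_c8cc4c_co.Hub
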