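import Mathlib
import Pool.Agent.H.MP_c8cc4c_co.Hub.A.Sig
import Pool.Agent.H.MP_c8cc4c_co.Hub.Gen

/-!
# MP_c8cc4c_co, full question, part A: few vertices see both of two regions
-/

open scoped Classical
open Finset

noncomputable section

namespace Pool.Agent.H.MP_c8cc4c_co.Hub

/-- A choice for a vertex `v` which sees both regions: the connecting set `σ` and its lowest vertex `z`
(`exists_sigma`; `z` = vertex of `σ` with the least height, `Finset.exists_min_image`; the vertex of `σ` adjacent to `K1` has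
height at most `h` by `Core.low`, so `f z ≤ h`). -/
theorem exists_sz {V : Type} [Fintype V] {R : Rt V} {l c : ℕ} (F : Fam R l c) {h : ℕ}
    {K1 K2 : Set V} {v : V} (hK1 : R.Core h K1) (hK2 : R.Core h K2) (hne : K1 ≠ K2)
    (h1 : v ∈ F.N K1) (h2 : v ∈ F.N K2) : ∃ (σ : Finset V) (z : V), ConnOn R.G (σ : Set V) ∧
      (∀ w ∈ σ, w ∉ K1 ∧ w ∉ K2) ∧
      (∃ z ∈ σ, ∃ w ∈ K1, R.G.Adj z w) ∧ (∃ z ∈ σ, ∃ w ∈ K2, R.G.Adj z w) ∧
      σ.card ≤ 2 * l + 2 ∧ (∀ w ∈ σ, F.Bel v w ∧ h + 1 ≤ R.f w + 2 * l ∧ w ≠ R.o) ∧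
      z ∈ σ ∧ R.f z ≤ h ∧ ∀ w ∈ σ, R.f z ≤ R.f w := by
  obtain ⟨σ, g1, g2, g3, g4, g5, g6⟩ := F.exists_sigma hK1 hK2 hne h1 h2
  obtain ⟨z0, hz0, w0, hw0, ha⟩ := g3
  obtain ⟨z, hz, hmin⟩ := Finset.exists_min_image σ R.f ⟨z0, hz0⟩
  refine ⟨σ, z, g1, g2, ⟨z0, hz0, w0, hw0, ha⟩, g4, g5, g6, hz, ?_, hmin⟩
  exact (hmin z0 hz0).trans (hK1.low hw0 (g2 z0 hz0).1 ha.symm)

/-- Four vertices with connecting sets `σ i` and low vertices `z i` such that no ancestor of `z j` is in `σ i`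
(`i ≠ j`) and the `σ i` are disjoint: contradiction to `K34` with `A = K1`, `B = K2`,
`C` = union of the sets of ancestors of `par (z i)`.
Proof. `ConnOn K1`, `ConnOn K1ᶜ` (`Core.compl`), `ConnOn K2`. `C = {p | ∃ i, anc p (par (z i))}` contains `o` (`anc_o`) and is
connected: every `p ∈ C` is joined to `o` in `C` by `anc_path (anc_o p)` (`anc_trans`). All `p ∈ C` have
`f p ≤ f (par (z i)) ≤ h` so `C` is disjoint from `K1`, `K2` (`Core.hi`). `σ i` and `C`: `p ∈ σ i`, `anc p (par (z j))`: then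
`anc p (z j)` (`anc_trans`, `anc_par`), so `i = j` by the hypothesis; then `f p ≤ f (par (z i)) < f (z i)` (`z i ≠ o`,
`par_f`), contrary to the minimality. `z i` is adjacent to `par (z i) ∈ C`. -/
theorem four_false {V : Type} [Fintype V] {R : Rt V} (h34 : K34 R.G) {h : ℕ} {K1 K2 : Set V}
    (hK1 : R.Core h K1) (hK2 : R.Core h K2) (hne : K1 ≠ K2) (σ : Fin 4 → Finset V) (z : Fin 4 → V)
    (s1 : ∀ i, ConnOn R.G (σ i : Set V)) (s2 : ∀ i, ∀ w ∈ σ i, w ∉ K1 ∧ w ∉ K2)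
    (s3 : ∀ i, ∃ z ∈ σ i, ∃ w ∈ K1, R.G.Adj z w) (s4 : ∀ i, ∃ z ∈ σ i, ∃ w ∈ K2, R.G.Adj z w)
    (s5 : ∀ i, ∀ w ∈ σ i, w ≠ R.o) (z1 : ∀ i, z i ∈ σ i) (z2 : ∀ i, R.f (z i) ≤ h)
    (z3 : ∀ i, ∀ w ∈ σ i, R.f (z i) ≤ R.f w)
    (d1 : ∀ i j, i ≠ j → ∀ p ∈ σ i, p ∉ σ j) (d2 : ∀ i j, i ≠ j → ∀ p ∈ σ i, ¬ R.anc p (z j)) :
    False := by
  have hlow : ∀ p i, R.anc p (R.par (z i)) → R.f p ≤ h := by
    intro p i hp
    have e1 := R.anc_le hp
    have e2 := R.f_par (z i)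
    have e3 := z2 i
    omega
  have hCconn : ConnOn R.G {p | ∃ i : Fin 4, R.anc p (R.par (z i))} := by
    refine connOn_of_center (x := R.o) ⟨0, R.anc_o _⟩ ?_
    rintro p ⟨i, hp⟩
    obtain ⟨n, hn⟩ := R.anc_path (R.anc_o p)
    refine ⟨n, near_symm (near_mono hn le_rfl ?_)⟩
    rintro q ⟨-, hq⟩
    exact ⟨i, R.anc_trans hq hp⟩
  refine h34 K1 K2 {p | ∃ i : Fin 4, R.anc p (R.par (z i))} (fun i => (σ i : Set V)) hK1.conn
    hK1.compl hK2.conn hCconn s1 ?_ ?_ ?_ ?_ ?_ ?_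
  · rw [Set.disjoint_left]
    intro x hx hx'
    exact hne (hK1.eq hK2 hx hx')
  · rw [Set.disjoint_left]
    rintro x hx ⟨i, hi⟩
    have := hlow x i hi
    have := hK1.hi hx
    omega
  · rw [Set.disjoint_left]
    rintro x hx ⟨i, hi⟩
    have := hlow x i hi
    have := hK2.hi hx
    omega
  · intro i
    refine ⟨?_, ?_, ?_⟩
    · rw [Set.disjoint_left]
      intro x hx hx'
      exact (s2 i x hx).1 hx'
    · rw [Set.disjoint_left]
      intro x hx hx'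
      exact (s2 i x hx).2 hx'
    · rw [Set.disjoint_left]
      rintro x hx ⟨j, hj⟩
      have hx' : x ∈ σ i := hx
      by_cases hij : i = j
      · subst hij
        have e1 := R.anc_le hj
        have e2 := R.par_f (z i) (s5 i _ (z1 i))
        have e3 := z3 i x hx'
        omega
      · exact d2 i j hij x hx' (R.anc_trans hj (R.anc_par _))
  · intro i j hij
    rw [Set.disjoint_left]
    intro x hx hx'
    exact d1 i j hij x hx hx'
  · intro i
    refine ⟨?_, ?_, ?_⟩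
    · exact s3 i
    · exact s4 i
    · exact ⟨z i, z1 i, R.par (z i), ⟨i, R.anc_refl _⟩, R.par_adj _ (s5 i _ (z1 i))⟩

/-- Few vertices see both of two regions.
Proof. `α` = the type of vertices `v` with `v ∈ N K1 ∧ v ∈ N K2`; choose `σ v`, `z v` (`exists_sz`). Relation
`r v v'`: some `p` in `σ v ∪ {p | anc p (z v) ∧ h + 1 - 2 l ≤ f p}` is in `σ v'`. The set has at most
`(2 l + 2) + 2 l` elements (`anc_card`: `f (z v) + 1 - (h + 1 - 2 l) ≤ 2 l`), and every `p` is in `σ v'` for at most `2 c + 1`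
vertices `v'` (`bel_card`; transfer to the subtype by `Finset.card_le_card_of_injOn Subtype.val` or similar), so the outdegree is at most
`d = (4 l + 2) (2 c + 1)` (`meet_card`). `col_out`: `2 d + 1` colours. One colour has at most 3 vertices: otherwise there are four
different ones (an injection `Fin 4 → α`, `Finset.exists_subset_card_eq`, `Finset.equivFin`) and `four_false` applies: if
`p ∈ σ i` is an ancestor of `z j` then `h + 1 ≤ f p + 2 l` so `r` holds for `j, i`, different colours. So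
`c1 = 3 (2 d + 1)` (`Finset.card_le_mul_card_image` or sum over fibres). -/
theorem pair_bound (l c : ℕ) : ∃ c1 : ℕ, ∀ (V : Type) [Fintype V] (R : Rt V), K34 R.G →
    ∀ (F : Fam R l c) (h : ℕ) (K1 K2 : Set V), R.Core h K1 → R.Core h K2 → K1 ≠ K2 →
    (univ.filter fun v => v ∈ F.N K1 ∧ v ∈ F.N K2).card ≤ c1 := by
  refine ⟨3 * (2 * ((4 * l + 2) * (2 * c + 1)) + 1), ?_⟩
  intro V _ R h34 F h K1 K2 hK1 hK2 hne
  have hch : ∀ v : {v : V // v ∈ F.N K1 ∧ v ∈ F.N K2}, ∃ (σ : Finset V) (z : V),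
      ConnOn R.G (σ : Set V) ∧
      (∀ w ∈ σ, w ∉ K1 ∧ w ∉ K2) ∧
      (∃ z ∈ σ, ∃ w ∈ K1, R.G.Adj z w) ∧ (∃ z ∈ σ, ∃ w ∈ K2, R.G.Adj z w) ∧
      σ.card ≤ 2 * l + 2 ∧ (∀ w ∈ σ, F.Bel v.1 w ∧ h + 1 ≤ R.f w + 2 * l ∧ w ≠ R.o) ∧
      z ∈ σ ∧ R.f z ≤ h ∧ ∀ w ∈ σ, R.f z ≤ R.f w :=
    fun v => exists_sz F hK1 hK2 hne v.2.1 v.2.2
  choose σ z g1 g2 g3 g4 g5 g6 g7 g8 g9 using hch
  have hrex : ∃ r : {v : V // v ∈ F.N K1 ∧ v ∈ F.N K2} → {v : V // v ∈ F.N K1 ∧ v ∈ F.N K2} → Prop,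
      ∀ v v', r v v' ↔
        ∃ p ∈ σ v ∪ univ.filter (fun p => R.anc p (z v) ∧ h + 1 - 2 * l ≤ R.f p), p ∈ σ v' :=
    ⟨_, fun _ _ => Iff.rfl⟩
  obtain ⟨r, hr0⟩ := hrex
  have hout : ∀ v : {v : V // v ∈ F.N K1 ∧ v ∈ F.N K2},
      (univ.filter fun v' : {v : V // v ∈ F.N K1 ∧ v ∈ F.N K2} => r v v').card ≤
      (4 * l + 2) * (2 * c + 1) := by
    intro v
    have hm := meet_card (σ v ∪ univ.filter (fun p => R.anc p (z v) ∧ h + 1 - 2 * l ≤ R.f p))
      (fun (p : V) (v' : {v : V // v ∈ F.N K1 ∧ v ∈ F.N K2}) => p ∈ σ v') (4 * l + 2) (2 * c + 1)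
      ?_ ?_
    · refine le_trans (Finset.card_le_card ?_) hm
      intro v' hv'
      simp only [Finset.mem_filter, Finset.mem_univ, true_and] at hv' ⊢
      exact (hr0 v v').1 hv'
    · refine (Finset.card_union_le _ _).trans ?_
      have e1 := g5 v
      have e2 := R.anc_card (z v) (h + 1 - 2 * l)
      have e3 := g8 v
      omega
    · intro p _
      refine le_trans ?_ (F.bel_card p)
      refine Finset.card_le_card_of_injOn Subtype.val ?_ Subtype.val_injective.injOn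
      intro v' hv'
      simp only [Finset.mem_coe, Finset.mem_filter, Finset.mem_univ, true_and] at hv' ⊢
      exact (g6 v' p hv').1
  obtain ⟨φ, hφ⟩ := col_out r _ hout
  have hfib : ∀ k : Fin (2 * ((4 * l + 2) * (2 * c + 1)) + 1),
      (univ.filter fun v : {v : V // v ∈ F.N K1 ∧ v ∈ F.N K2} => φ v = k).card ≤ 3 := by
    intro k
    by_contra hcon
    obtain ⟨T, hT1, hT2⟩ := Finset.exists_subset_card_eq (n := 4) (by omega :
      4 ≤ (univ.filter fun v : {v : V // v ∈ F.N K1 ∧ v ∈ F.N K2} => φ v = k).card)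
    let e := (T.equivFinOfCardEq hT2).symm
    have hcol : ∀ i, φ (e i).1 = k := fun i => (Finset.mem_filter.1 (hT1 (e i).2)).2
    have hinj : ∀ i j : Fin 4, i ≠ j → ((e i).1 : {v : V // v ∈ F.N K1 ∧ v ∈ F.N K2}) ≠ (e j).1 :=
      fun i j hij hc => hij (e.injective (Subtype.ext hc))
    have hr : ∀ i j : Fin 4, i ≠ j → ¬ ∃ p ∈ σ (e i).1 ∪
        univ.filter (fun p => R.anc p (z (e i).1) ∧ h + 1 - 2 * l ≤ R.f p), p ∈ σ (e j).1 := by
      intro i j hij hc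
      exact hφ _ _ (hinj i j hij) ((hr0 _ _).2 hc) ((hcol i).trans (hcol j).symm)
    refine four_false h34 hK1 hK2 hne (fun i => σ (e i).1) (fun i => z (e i).1) (fun i => g1 _)
      (fun i => g2 _) (fun i => g3 _) (fun i => g4 _) (fun i w hw => (g6 _ w hw).2.2)
      (fun i => g7 _) (fun i => g8 _) (fun i => g9 _) ?_ ?_
    · intro i j hij p hp hp'
      exact hr i j hij ⟨p, Finset.mem_union_left _ hp, hp'⟩
    · intro i j hij p hp hanc
      refine hr j i (Ne.symm hij) ⟨p, Finset.mem_union_right _ ?_, hp⟩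
      rw [Finset.mem_filter]
      refine ⟨mem_univ _, hanc, ?_⟩
      have := (g6 _ p hp).2.1
      omega
  have h1 : (univ.filter fun v => v ∈ F.N K1 ∧ v ∈ F.N K2).card =
      (univ : Finset {v : V // v ∈ F.N K1 ∧ v ∈ F.N K2}).card := by
    rw [Finset.card_univ, Fintype.card_subtype]
  rw [h1]
  refine (Finset.card_le_mul_card_image_of_maps_to (t := univ) (f := φ) (fun _ _ => mem_univ _) 3
    (fun k _ => hfib k)).trans ?_
  rw [Finset.card_univ, Fintype.card_fin]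

end Pool.Agent.H.MP_c8cc4c_co.Hub
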