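import Mathlib
import Pool.Agent.H.MP_c8cc4c_co.Hub.A.Sig
import Pool.Agent.H.MP_c8cc4c_co.Hub.Gen

/-!
# MP_c8cc4c_co, full question, part A: the first region seen by a vertex, links
-/

open scoped Classical
open Finset

noncomputable section

namespace Pool.Agent.H.MP_c8cc4c_co.Hub

namespace Fam

variable {V : Type} [Fintype V] {R : Rt V} {l c : ℕ} (F : Fam R l c) {h : ℕ} {K : Set V}
  {v : V}

/-- The first region of a family `S` of regions on a path from `v`.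
Proof. If `v` is in some region of `S`: `i` = this region, `W = ∅`. Otherwise `v ∈ N K` for some `K ∈ S`, so there is an
edge `v u` and `w ∈ Q s(v,u)`, `w ∈ K`. Proceed as in the proof of `exists_exit` (FamB.lean) with the union of
the regions of `S` instead of `K`: `walk_exit (p.takeUntil w _)` gives `W`, `a`, `b` with `a` in some region `i ∈ S`; `a` is in the support of
the path, so `v ∈ N i` (`mem_N_left`). The elements of `W` are in the support of the path and different from `u`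
(`endpoint_notMem_support_takeUntil`; `w ∉ W`), so `W ⊆ (Q s(v,u)).erase u` and `W.card ≤ l`. -/
theorem exists_first (S : Finset (Set V)) (hS : ∀ K ∈ S, R.Core h K) (hv : ∃ K ∈ S, v ∈ F.N K) :
    ∃ i ∈ S, v ∈ F.N i ∧ ∃ W : Finset V, ((v ∈ i ∧ W = ∅) ∨
      (ConnOn R.G (W : Set V) ∧ v ∈ W ∧ ∃ b ∈ W, ∃ a ∈ i, R.G.Adj b a)) ∧
      (∀ w ∈ W, F.Bel v w ∧ ∀ K ∈ S, w ∉ K) ∧ W.card ≤ l := by
  by_cases hU : ∃ i ∈ S, v ∈ i
  · obtain ⟨i, hi, hvi⟩ := hU
    exact ⟨i, hi, F.mem_N_self hvi, ∅, Or.inl ⟨hvi, rfl⟩, by simp, by simp⟩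
  · obtain ⟨K, hK, hvK⟩ := hv
    rcases hvK with hvK | ⟨u, hvu, w, hw, hwK⟩
    · exact absurd ⟨K, hK, hvK⟩ hU
    obtain ⟨p, hpath, _, hs⟩ := F.path v u hvu
    have hwp := (hs w).1 hw
    obtain ⟨W, a, b, h1, h2, h3, h4, h5, h6, h7⟩ :=
      walk_exit (p.takeUntil w hwp) {x | ∃ i ∈ S, x ∈ i} hU ⟨K, hK, hwK⟩
    obtain ⟨i, hi, hai⟩ := h4
    have hWQ : ∀ z ∈ W, z ∈ F.Q s(v, u) ∧ z ≠ u := by
      intro z hz
      refine ⟨(hs z).2 (p.support_takeUntil_subset_support hwp (h6 z hz).2), ?_⟩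
      rintro rfl
      by_cases hzw : w = z
      · subst hzw
        exact (h6 _ hz).1 ⟨K, hK, hwK⟩
      · exact SimpleGraph.Walk.endpoint_notMem_support_takeUntil hpath hwp (Ne.symm hzw)
          (h6 _ hz).2
    refine ⟨i, hi, F.mem_N_left hvu ((hs a).2 (p.support_takeUntil_subset_support hwp h7)) hai, W,
      Or.inr ⟨h1, h2, b, h3, a, hai, h5⟩, ?_, ?_⟩
    · intro z hz
      refine ⟨?_, fun K' hK' hzK' => (h6 z hz).1 ⟨K', hK', hzK'⟩⟩
      by_cases hzv : z = v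
      · exact Or.inl hzv
      · exact Or.inr ⟨u, hvu, (hWQ z hz).1, hzv, (hWQ z hz).2⟩
    · have h8 : W ⊆ (F.Q s(v, u)).erase u := by
        intro z hz
        rw [Finset.mem_erase]
        exact ⟨(hWQ z hz).2, (hWQ z hz).1⟩
      have h9 := Finset.card_le_card h8
      rw [Finset.card_erase_of_mem (F.right_mem hvu)] at h9
      have := F.Q_card hvu
      omega

/-- The link from `v` to a region `K` which it sees: `L` = interior vertices of a path.
Proof. `exists_exit` with its `inQ`: `u` with `Γ.Adj v u`, `Q s(v,u)` meets `K`, `W ⊆ Q s(v,u)`, `u ∉ W`. `L` = `Q s(v,u)` without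
`v` and `u`; `L.card ≤ l` (in fact `l - 1`; `Q_card`). The walk from `v` to `b` in `W` and the edge `b a`: all the vertices are in
`{v, a} ∪ L`. -/
theorem exists_link (hv : v ∈ F.N K) (hvK : v ∉ K) : ∃ u, F.Γ.Adj v u ∧
    (∃ w ∈ F.Q s(v, u), w ∈ K) ∧ ∃ a ∈ K, ∃ n,
      Near R.G ({v, a} ∪ {w | w ∈ F.Q s(v, u) ∧ w ≠ v ∧ w ≠ u}) n v a := by
  obtain ⟨W, a, b, hE⟩ := F.exists_exit hv hvK
  obtain ⟨u, hvu, hmeet, hW⟩ := hE.inQ
  refine ⟨u, hvu, hmeet, a, hE.aK, ?_⟩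
  obtain ⟨n, hn⟩ := hE.conn.2 v hE.vW b hE.bW
  have hsub : (W : Set V) ⊆ {v, a} ∪ {w | w ∈ F.Q s(v, u) ∧ w ≠ v ∧ w ≠ u} := by
    intro z hz
    by_cases hzv : z = v
    · exact Or.inl (Or.inl hzv)
    · exact Or.inr ⟨(hW z hz).1, hzv, (hW z hz).2⟩
  exact ⟨n + 1, near_trans (near_mono hn le_rfl hsub)
    (near_adj (hsub hE.bW) (Or.inl (Or.inr rfl)) hE.adj)⟩

/-- A path meets few regions (disjoint by `Core.eq`; choose a common vertex for every region: injective). -/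
theorem meet_cores {x u : V} (hxu : F.Γ.Adj x u) (S : Finset (Set V)) (hS : ∀ K ∈ S, R.Core h K) :
    (S.filter fun K => ∃ w ∈ F.Q s(x, u), w ∈ K).card ≤ l + 1 := by
  have h1 : ∀ K ∈ S.filter (fun K => ∃ w ∈ F.Q s(x, u), w ∈ K),
      ∃ w ∈ F.Q s(x, u), w ∈ K := fun K hK => (Finset.mem_filter.1 hK).2
  let g : Set V → V := fun K => if hK : ∃ w ∈ F.Q s(x, u), w ∈ K then hK.choose else x
  have hg : ∀ K, (∃ w ∈ F.Q s(x, u), w ∈ K) → g K ∈ F.Q s(x, u) ∧ g K ∈ K := by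
    intro K hK
    simp only [g, dif_pos hK]
    exact hK.choose_spec
  refine (Finset.card_le_card_of_injOn g (fun K hK => (hg K (h1 K hK)).1) ?_).trans
    (F.Q_card hxu)
  intro K hK K' hK' he
  rw [Finset.mem_coe] at hK hK'
  have h2 := (hg K (h1 K hK)).2
  have h3 := (hg K' (h1 K' hK')).2
  have he' : g K = g K' := he
  rw [← he'] at h3
  exact (hS K (Finset.mem_filter.1 hK).1).eq (hS K' (Finset.mem_filter.1 hK').1) h2 h3

/-- Congestion: the pairs (v, K), where `K ∈ S` and `e v K` is an edge of `Γ` with the end `v` whose path meets `K` and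
has the interior vertex `p`.
Proof. The set is contained in the union over the at most `c` edges `e` with `p` in the interior (`cong`) of
(ends of `e`, at most 2) x (regions of `S` which meet `Q e`, at most `l + 1` by `meet_cores`). -/
theorem link_cong (S : Finset (Set V)) (hS : ∀ K ∈ S, R.Core h K) (ed : V → Set V → V)
    (A : Finset (V × Set V)) (hA : ∀ q ∈ A, q.2 ∈ S ∧ F.Γ.Adj q.1 (ed q.1 q.2) ∧
      ∃ w ∈ F.Q s(q.1, ed q.1 q.2), w ∈ q.2) (p : V) :
    (A.filter fun q => p ∈ F.Q s(q.1, ed q.1 q.2) ∧ p ≠ q.1 ∧ p ≠ ed q.1 q.2).card ≤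
      2 * c * (l + 1) := by
  have h1 : (A.filter fun q => p ∈ F.Q s(q.1, ed q.1 q.2) ∧ p ≠ q.1 ∧ p ≠ ed q.1 q.2) ⊆
      (univ.filter fun e : Sym2 V => e ∈ F.Γ.edgeSet ∧ p ∈ F.Q e ∧ p ∉ e).biUnion
        fun e => (univ.filter fun x => x ∈ e) ×ˢ (S.filter fun K => ∃ w ∈ F.Q e, w ∈ K) := by
    intro q hq
    rw [Finset.mem_filter] at hq
    obtain ⟨hqA, h2, h3, h4⟩ := hq
    obtain ⟨h5, h6, h7⟩ := hA q hqA
    rw [Finset.mem_biUnion]
    refine ⟨s(q.1, ed q.1 q.2), ?_, ?_⟩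
    · rw [Finset.mem_filter]
      refine ⟨mem_univ _, h6, h2, ?_⟩
      rw [Sym2.mem_iff]
      rintro (h | h)
      · exact h3 h
      · exact h4 h
    · rw [Finset.mem_product, Finset.mem_filter, Finset.mem_filter]
      exact ⟨⟨mem_univ _, Sym2.mem_mk_left _ _⟩, h5, h7⟩
  have h2 : ∀ e ∈ (univ.filter fun e : Sym2 V => e ∈ F.Γ.edgeSet ∧ p ∈ F.Q e ∧ p ∉ e),
      ((univ.filter fun x => x ∈ e) ×ˢ (S.filter fun K => ∃ w ∈ F.Q e, w ∈ K)).card ≤
        2 * (l + 1) := by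
    intro e he
    rw [Finset.card_product]
    induction e with
    | _ a b =>
      have hab : F.Γ.Adj a b := (Finset.mem_filter.1 he).2.1
      have h3 : (univ.filter fun x => x ∈ s(a, b)) ⊆ ({a, b} : Finset V) := by
        intro x hx
        rw [Finset.mem_filter, Sym2.mem_iff] at hx
        rw [Finset.mem_insert, Finset.mem_singleton]
        exact hx.2
      exact Nat.mul_le_mul ((Finset.card_le_card h3).trans Finset.card_le_two)
        (F.meet_cores hab S hS)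
  refine (Finset.card_le_card h1).trans ((Finset.card_biUnion_le_card_mul _ _ _ h2).trans ?_)
  calc _ ≤ c * (2 * (l + 1)) := Nat.mul_le_mul_right _ (F.cong p)
    _ = 2 * c * (l + 1) := by ring

end Fam

end Pool.Agent.H.MP_c8cc4c_co.Hub
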