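import Mathlib
import Pool.Agent.H.MP_c8cc4c_co.Hub.A.Fst
import Pool.Agent.H.MP_c8cc4c_co.Hub.A.Pair

/-!
# MP_c8cc4c_co, full question, part A: one colour
-/

open scoped Classical
open Finset

noncomputable section

namespace Pool.Agent.H.MP_c8cc4c_co.Hub

/-- a global choice of edges towards the regions -/
theorem exists_ed {V : Type} [Fintype V] {R : Rt V} {l c : ℕ} (F : Fam R l c) :
    ∃ ed : V → Set V → V, ∀ v K, v ∈ F.N K → v ∉ K → F.Γ.Adj v (ed v K) ∧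
      (∃ w ∈ F.Q s(v, ed v K), w ∈ K) ∧ ∃ a ∈ K, ∃ n,
        Near R.G ({v, a} ∪ {w | w ∈ F.Q s(v, ed v K) ∧ w ≠ v ∧ w ≠ ed v K}) n v a := by
  have h : ∀ v K, ∃ u, v ∈ F.N K → v ∉ K → F.Γ.Adj v u ∧
      (∃ w ∈ F.Q s(v, u), w ∈ K) ∧ ∃ a ∈ K, ∃ n,
        Near R.G ({v, a} ∪ {w | w ∈ F.Q s(v, u) ∧ w ≠ v ∧ w ≠ u}) n v a := by
    intro v K
    by_cases h1 : v ∈ F.N K ∧ v ∉ K
    · obtain ⟨u, hu⟩ := F.exists_link h1.1 h1.2
      exact ⟨u, fun _ _ => hu⟩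
    · exact ⟨v, fun h2 h3 => absurd ⟨h2, h3⟩ h1⟩
  choose ed hed using h
  exact ⟨ed, hed⟩

/-- One colour: the pairs (first region of `v`, other region seen by `v`) are few. -/
theorem one_colour (hF2 : Fact2Stmt) (l c : ℕ) : ∃ d : ℕ, ∀ (V : Type) [Fintype V] (R : Rt V),
    M5 R.G → ∀ (F : Fam R l c) (h : ℕ) (S : Finset (Set V)), (∀ K ∈ S, R.Core h K) →
    ∀ (B : Finset V) (i : V → Set V) (W : V → Finset V),
    (∀ v ∈ B, i v ∈ S ∧ ((v ∈ i v ∧ W v = ∅) ∨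
      (ConnOn R.G (W v : Set V) ∧ v ∈ W v ∧ ∃ b ∈ W v, ∃ a ∈ i v, R.G.Adj b a)) ∧
      ∀ w ∈ W v, ∀ K ∈ S, w ∉ K) →
    (∀ v ∈ B, ∀ v' ∈ B, v ≠ v' → ∀ w ∈ W v, w ∉ W v') →
    ((S ×ˢ S).filter fun q => q.2 ≠ q.1 ∧ ∃ v ∈ B, i v = q.1 ∧ v ∈ F.N q.2).card ≤ d * S.card := by
  obtain ⟨d, hd⟩ := hF2 l (2 * c * (l + 1))
  refine ⟨d, ?_⟩
  intro V _ R hM5 F h S hS B i W hB hdis
  obtain ⟨ed, hed⟩ := exists_ed F
  -- the sets
  obtain ⟨X, hX⟩ : ∃ X : {K : Set V // K ∈ S} → Set V,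
      ∀ K x, x ∈ X K ↔ x ∈ K.1 ∨ ∃ v ∈ B, i v = K.1 ∧ x ∈ W v :=
    ⟨fun K => {x | x ∈ K.1 ∨ ∃ v ∈ B, i v = K.1 ∧ x ∈ W v}, fun _ _ => Iff.rfl⟩
  have hconn : ∀ K, ConnOn R.G (X K) := by
    intro K
    have hc := (hS K.1 K.2).conn
    obtain ⟨a0, ha0⟩ := hc.1
    apply connOn_of_center (x := a0) ((hX K a0).2 (Or.inl ha0))
    have hKX : K.1 ⊆ X K := fun z hz => (hX K z).2 (Or.inl hz)
    intro y hy
    rcases (hX K y).1 hy with hy | ⟨v, hvB, hiv, hyW⟩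
    · obtain ⟨n, hn⟩ := hc.2 a0 ha0 y hy
      exact ⟨n, near_mono hn le_rfl hKX⟩
    · obtain ⟨_, h2, _⟩ := hB v hvB
      rcases h2 with ⟨_, h3⟩ | ⟨h3, _, b, hbW, a, hai, hadj⟩
      · rw [h3] at hyW
        exact absurd hyW (Finset.notMem_empty _)
      · have hWX : (W v : Set V) ⊆ X K := fun z hz => (hX K z).2 (Or.inr ⟨v, hvB, hiv, hz⟩)
        obtain ⟨n, hn⟩ := h3.2 b hbW y hyW
        rw [hiv] at hai
        obtain ⟨m, hm⟩ := hc.2 a0 ha0 a hai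
        refine ⟨m + 1 + n, near_trans (near_trans (near_mono hm le_rfl hKX)
          (near_adj (hKX hai) (hWX hbW) hadj.symm)) (near_mono hn le_rfl hWX)⟩
  have hdisj : ∀ K K', K ≠ K' → Disjoint (X K) (X K') := by
    intro K K' hne
    rw [Set.disjoint_left]
    intro x hx hx'
    rcases (hX K x).1 hx with h1 | ⟨v, hvB, hiv, hyW⟩
    · rcases (hX K' x).1 hx' with h2 | ⟨v', hvB', hiv', hyW'⟩
      · exact hne (Subtype.ext ((hS K.1 K.2).eq (hS K'.1 K'.2) h1 h2))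
      · exact (hB v' hvB').2.2 x hyW' K.1 K.2 h1
    · rcases (hX K' x).1 hx' with h2 | ⟨v', hvB', hiv', hyW'⟩
      · exact (hB v hvB).2.2 x hyW K'.1 K'.2 h2
      · have hvv : v ≠ v' := by
          rintro rfl
          exact hne (Subtype.ext (hiv.symm.trans hiv'))
        exact hdis v hvB v' hvB' hvv x hyW hyW'
  -- the links
  have hnot : ∀ v ∈ B, ∀ K ∈ S, K ≠ i v → v ∉ K := by
    intro v hv K hK hne hvK
    obtain ⟨h1, h2, h3⟩ := hB v hv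
    rcases h2 with ⟨h4, _⟩ | ⟨_, h4, _⟩
    · exact hne ((hS K hK).eq (hS _ h1) hvK h4)
    · exact h3 v h4 K hK hvK
  obtain ⟨A, hA⟩ : ∃ A : Finset (V × Set V), ∀ q, q ∈ A ↔
      q.1 ∈ B ∧ q.2 ∈ S ∧ q.2 ≠ i q.1 ∧ q.1 ∈ F.N q.2 :=
    ⟨univ.filter fun q => q.1 ∈ B ∧ q.2 ∈ S ∧ q.2 ≠ i q.1 ∧ q.1 ∈ F.N q.2, fun q => by simp⟩
  have hAed : ∀ q ∈ A, q.2 ∈ S ∧ F.Γ.Adj q.1 (ed q.1 q.2) ∧
      ∃ w ∈ F.Q s(q.1, ed q.1 q.2), w ∈ q.2 := by
    intro q hq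
    obtain ⟨h1, h2, h3, h4⟩ := (hA q).1 hq
    obtain ⟨h5, h6, _⟩ := hed q.1 q.2 h4 (hnot q.1 h1 q.2 h2 h3)
    exact ⟨h2, h5, h6⟩
  have key := hd V R.G hM5 {K : Set V // K ∈ S} X hconn hdisj {q : V × Set V // q ∈ A}
    (fun q => ⟨i q.1.1, (hB q.1.1 ((hA q.1).1 q.2).1).1⟩)
    (fun q => ⟨q.1.2, ((hA q.1).1 q.2).2.1⟩)
    (fun q => ((F.Q s(q.1.1, ed q.1.1 q.1.2)).erase q.1.1).erase (ed q.1.1 q.1.2))
    (by
      intro q hq
      have := congrArg Subtype.val hq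
      exact ((hA q.1).1 q.2).2.2.1 this.symm)
    (by
      intro q
      obtain ⟨_, h5, _⟩ := hAed q.1 q.2
      have h6 := Finset.card_le_card (Finset.erase_subset (ed q.1.1 q.1.2)
        ((F.Q s(q.1.1, ed q.1.1 q.1.2)).erase q.1.1))
      rw [Finset.card_erase_of_mem (F.left_mem h5)] at h6
      have h7 := F.Q_card h5
      omega)
    (by
      intro p
      have h8 := F.link_cong S hS ed A hAed p
      refine le_trans ?_ h8
      apply Finset.card_le_card_of_injOn (fun q : {q : V × Set V // q ∈ A} => q.1)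
      · intro q hq
        rw [Finset.mem_coe, Finset.mem_filter, Finset.mem_erase, Finset.mem_erase] at hq
        rw [Finset.mem_coe, Finset.mem_filter]
        exact ⟨q.2, hq.2.2.2, hq.2.2.1, hq.2.1⟩
      · intro q _ q' _ he
        exact Subtype.ext he)
    (by
      intro q
      obtain ⟨h1, h2, h3, h4⟩ := (hA q.1).1 q.2
      obtain ⟨_, _, a, haK, n, hn⟩ := hed q.1.1 q.1.2 h4 (hnot _ h1 _ h2 h3)
      refine ⟨q.1.1, (hX _ _).2 ?_, a, (hX _ _).2 (Or.inl haK), n, near_mono hn le_rfl ?_⟩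
      · rcases (hB _ h1).2.1 with ⟨h5, _⟩ | ⟨_, h5, _⟩
        · exact Or.inl h5
        · exact Or.inr ⟨_, h1, rfl, h5⟩
      · apply Set.union_subset_union_right
        rintro w ⟨h5, h6, h7⟩
        rw [Finset.mem_coe, Finset.mem_erase, Finset.mem_erase]
        exact ⟨h7, h6, h5⟩)
    univ
  have hcard : (univ : Finset {K : Set V // K ∈ S}).card = S.card := by
    rw [Finset.card_univ, Fintype.card_coe]
  rw [hcard] at key
  refine le_trans ?_ key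
  have hsub : ((S ×ˢ S).filter fun q => q.2 ≠ q.1 ∧ ∃ v ∈ B, i v = q.1 ∧ v ∈ F.N q.2) ⊆
      (((univ : Finset {K : Set V // K ∈ S}) ×ˢ (univ : Finset {K : Set V // K ∈ S})).filter
        fun q => ∃ y : {q : V × Set V // q ∈ A},
          (⟨i y.1.1, (hB y.1.1 ((hA y.1).1 y.2).1).1⟩ : {K : Set V // K ∈ S}) = q.1 ∧
          (⟨y.1.2, ((hA y.1).1 y.2).2.1⟩ : {K : Set V // K ∈ S}) = q.2).image
        fun q => (q.1.1, q.2.1) := by
    intro q hq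
    rw [Finset.mem_filter, Finset.mem_product] at hq
    obtain ⟨⟨hq1, hq2⟩, hne, v, hvB, hiv, hvN⟩ := hq
    rw [Finset.mem_image]
    refine ⟨(⟨q.1, hq1⟩, ⟨q.2, hq2⟩), ?_, rfl⟩
    rw [Finset.mem_filter]
    refine ⟨by simp, ⟨(v, q.2), (hA _).2 ⟨hvB, hq2, ?_, hvN⟩⟩, Subtype.ext hiv, rfl⟩
    rw [hiv]
    exact hne
  have h9 := (Finset.card_le_card hsub).trans Finset.card_image_le
  convert h9

end Pool.Agent.H.MP_c8cc4c_co.Hub
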