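import Mathlib
import Pool.Agent.H.MP_c8cc4c_co.Hub.A.RankOne
import Pool.Agent.H.MP_c8cc4c_co.Hub.A.Pair

/-!
# MP_c8cc4c_co, full question, part A: a region with few contested vertices
-/

open scoped Classical
open Finset

noncomputable section

namespace Pool.Agent.H.MP_c8cc4c_co.Hub

/-- All colours.
Proof. Let `B0` = the vertices which see a region of `S`; choose `i`, `W` by `exists_first`. Relation `r v v'` on `V`:
`v, v' ∈ B0` and some `w ∈ W v` is in `W v'`; outdegree at most `l (2 c + 1)` (`meet_card`, `bel_card`), so `col_out` gives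
`m = 2 l (2 c + 1) + 1` colours. For each colour `k` apply `one_colour` to
`B = {v ∈ B0 | φ v = k}`. The pairs for all colours: union over `k`, at most `m d |S|`. -/
theorem all_colours (hF2 : Fact2Stmt) (l c : ℕ) : ∃ D : ℕ, ∀ (V : Type) [Fintype V] (R : Rt V),
    M5 R.G → ∀ (F : Fam R l c) (h : ℕ) (S : Finset (Set V)), (∀ K ∈ S, R.Core h K) →
    ∃ i : V → Set V, (∀ v, (∃ K ∈ S, v ∈ F.N K) → i v ∈ S ∧ v ∈ F.N (i v)) ∧
    ((S ×ˢ S).filter fun q => q.2 ≠ q.1 ∧ ∃ v, (∃ K ∈ S, v ∈ F.N K) ∧ i v = q.1 ∧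
      v ∈ F.N q.2).card ≤ D * S.card := by
  obtain ⟨d, hd⟩ := one_colour hF2 l c
  refine ⟨(2 * (l * (2 * c + 1)) + 1) * d, ?_⟩
  intro V _ R hM F h S hS
  have h0 : ∀ v, ∃ (i : Set V) (W : Finset V), (∃ K ∈ S, v ∈ F.N K) → i ∈ S ∧ v ∈ F.N i ∧
      ((v ∈ i ∧ W = ∅) ∨
      (ConnOn R.G (W : Set V) ∧ v ∈ W ∧ ∃ b ∈ W, ∃ a ∈ i, R.G.Adj b a)) ∧
      (∀ w ∈ W, F.Bel v w ∧ ∀ K ∈ S, w ∉ K) ∧ W.card ≤ l := by
    intro v
    by_cases hv : ∃ K ∈ S, v ∈ F.N K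
    · obtain ⟨i, hi, hvi, W, hW⟩ := F.exists_first S hS hv
      exact ⟨i, W, fun _ => ⟨hi, hvi, hW⟩⟩
    · exact ⟨∅, ∅, fun h => absurd h hv⟩
  choose i W hiW using h0
  refine ⟨i, fun v hv => ⟨(hiW v hv).1, (hiW v hv).2.1⟩, ?_⟩
  obtain ⟨r, hr⟩ : ∃ r : V → V → Prop, ∀ v v', r v v' ↔ ((∃ K ∈ S, v ∈ F.N K) ∧
    (∃ K ∈ S, v' ∈ F.N K) ∧ ∃ w ∈ W v, w ∈ W v') := ⟨_, fun _ _ => Iff.rfl⟩
  have hout : ∀ v, (univ.filter fun y => r v y).card ≤ l * (2 * c + 1) := by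
    intro v
    by_cases hv : ∃ K ∈ S, v ∈ F.N K
    · refine (Finset.card_le_card ?_).trans (meet_card (W v) (fun w y => F.Bel y w) l (2 * c + 1)
        (hiW v hv).2.2.2.2 fun w _ => F.bel_card w)
      intro y hy
      rw [Finset.mem_filter] at hy ⊢
      obtain ⟨_, hy⟩ := hy
      obtain ⟨_, hy2, w, hw, hw'⟩ := (hr v y).1 hy
      exact ⟨mem_univ _, w, hw, ((hiW y hy2).2.2.2.1 w hw').1⟩
    · have h1 : (univ.filter fun y => r v y) = ∅ := by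
        rw [Finset.filter_eq_empty_iff]
        intro y _ hy
        exact hv ((hr v y).1 hy).1
      rw [h1, Finset.card_empty]
      exact Nat.zero_le _
  obtain ⟨φ, hφ⟩ := col_out r (l * (2 * c + 1)) hout
  have hcol : ∀ k : Fin (2 * (l * (2 * c + 1)) + 1), ∃ T : Finset (Set V × Set V),
      T.card ≤ d * S.card ∧ ∀ q ∈ S ×ˢ S, q.2 ≠ q.1 → (∃ v, (∃ K ∈ S, v ∈ F.N K) ∧ φ v = k ∧
      i v = q.1 ∧ v ∈ F.N q.2) → q ∈ T := by
    intro k
    have h1 := hd V R hM F h S hS (univ.filter fun v => (∃ K ∈ S, v ∈ F.N K) ∧ φ v = k) i W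
      (by
        intro v hv
        rw [Finset.mem_filter] at hv
        have h1 := hiW v hv.2.1
        exact ⟨h1.1, h1.2.2.1, fun w hw => (h1.2.2.2.1 w hw).2⟩)
      (by
        intro v hv v' hv' hne w hw hw'
        rw [Finset.mem_filter] at hv hv'
        exact hφ v v' hne ((hr v v').2 ⟨hv.2.1, hv'.2.1, w, hw, hw'⟩)
          (hv.2.2.trans hv'.2.2.symm))
    refine ⟨_, h1, ?_⟩
    rintro q hq hne ⟨v, hv, hk, hiv, hvN⟩
    rw [Finset.mem_filter]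
    refine ⟨hq, hne, v, ?_, hiv, hvN⟩
    rw [Finset.mem_filter]
    exact ⟨mem_univ _, hv, hk⟩
  choose T hT1 hT2 using hcol
  refine (Finset.card_le_card (t := (univ : Finset (Fin (2 * (l * (2 * c + 1)) + 1))).biUnion T)
    ?_).trans ((Finset.card_biUnion_le_card_mul _ _ (d * S.card) fun k _ => hT1 k).trans ?_)
  · intro q hq
    rw [Finset.mem_filter] at hq
    obtain ⟨hqS, hne, v, hv, hiv, hvN⟩ := hq
    rw [Finset.mem_biUnion]
    exact ⟨φ v, mem_univ _, hT2 (φ v) q hqS hne ⟨v, hv, rfl, hiv, hvN⟩⟩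
  · rw [Finset.card_univ, Fintype.card_fin, mul_assoc]

/-- A region with few contested vertices.
Proof. `low_deg` for the relation `r K K'`: `K' ≠ K ∧ ∃ v, (sees a region of S) ∧ i v = K ∧ v ∈ N K'` (on the type
`Set V`, finite) and `A = S`: a region `K ∈ S` with at most `2 D` neighbours `K''` (`K'' ≠ K`, `r K K'' ∨ r K'' K`). Every contested
vertex `v` (`v ∈ N K`, `v ∈ N K'`, `K' ∈ S`, `K' ≠ K`) is in `N K ∩ N K''` for a neighbour `K''`: if `i v = K` then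
`K'' = K'`; if `i v ≠ K` then `K'' = i v` (`r (i v) K`). So the number is at most `2 D c1` with `c1` from
`pair_bound` (`Finset.card_biUnion_le_card_mul`). -/
theorem low_cost (hF2 : Fact2Stmt) (l c : ℕ) : ∃ c2 : ℕ, ∀ (V : Type) [Fintype V] (R : Rt V),
    M5 R.G → K34 R.G → ∀ (F : Fam R l c) (h : ℕ) (S : Finset (Set V)), (∀ K ∈ S, R.Core h K) →
    S.Nonempty → ∃ K ∈ S, (univ.filter fun v => v ∈ F.N K ∧ ∃ K' ∈ S, K' ≠ K ∧
      v ∈ F.N K').card ≤ c2 := by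
  obtain ⟨D, hD⟩ := all_colours hF2 l c
  obtain ⟨c1, hc1⟩ := pair_bound l c
  refine ⟨2 * D * c1, ?_⟩
  intro V _ R hM hK34 F h S hS hne
  obtain ⟨i, hi, hcard⟩ := hD V R hM F h S hS
  obtain ⟨r, hr⟩ : ∃ r : Set V → Set V → Prop, ∀ K K', r K K' ↔ (K' ≠ K ∧
    ∃ v, (∃ K ∈ S, v ∈ F.N K) ∧ i v = K ∧ v ∈ F.N K') := ⟨_, fun _ _ => Iff.rfl⟩
  obtain ⟨K, hK, hlow⟩ := low_deg r D S hne (le_trans (Finset.card_le_card (by
    intro q hq
    rw [Finset.mem_filter] at hq ⊢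
    exact ⟨hq.1, (hr q.1 q.2).1 hq.2⟩)) hcard)
  refine ⟨K, hK, ?_⟩
  refine (Finset.card_le_card (t := (S.filter fun y => y ≠ K ∧ (r K y ∨ r y K)).biUnion fun K'' =>
        univ.filter fun v => v ∈ F.N K ∧ v ∈ F.N K'') ?_).trans
    ((Finset.card_biUnion_le_card_mul _ _ c1 ?_).trans (Nat.mul_le_mul_right _ hlow))
  · intro v hv
    rw [Finset.mem_filter] at hv
    obtain ⟨_, hvK, K', hK', hne', hvK'⟩ := hv
    rw [Finset.mem_biUnion]
    have hsee : ∃ K ∈ S, v ∈ F.N K := ⟨K, hK, hvK⟩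
    by_cases h1 : i v = K
    · refine ⟨K', ?_, ?_⟩
      · rw [Finset.mem_filter]
        exact ⟨hK', hne', Or.inl ((hr _ _).2 ⟨hne', v, hsee, h1, hvK'⟩)⟩
      · rw [Finset.mem_filter]
        exact ⟨mem_univ _, hvK, hvK'⟩
    · refine ⟨i v, ?_, ?_⟩
      · rw [Finset.mem_filter]
        exact ⟨(hi v hsee).1, h1, Or.inr ((hr _ _).2 ⟨Ne.symm h1, v, hsee, rfl, hvK⟩)⟩
      · rw [Finset.mem_filter]
        exact ⟨mem_univ _, hvK, (hi v hsee).2⟩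
  · intro K'' hK''
    rw [Finset.mem_filter] at hK''
    exact hc1 V R hK34 F h K K'' (hS K hK) (hS K'' hK''.1) (Ne.symm hK''.2.1)

end Pool.Agent.H.MP_c8cc4c_co.Hub
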