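import Mathlib
import Pool.Agent.H.MP_c8cc4c_co.Hub.A.Rank

/-!
# MP_c8cc4c_co, full question, part A: the assignment
-/

open scoped Classical
open Finset

noncomputable section

namespace Pool.Agent.H.MP_c8cc4c_co.Hub

/-- An order of the regions in which every region has few contested vertices with the regions before it.
Proof. Induction on the number of elements, as in `order_deg` (Gen.lean): the region `K` with few contested vertices gets the
largest rank. -/
theorem exists_rank {V : Type} [Fintype V] (N : Set V → Set V) (c2 : ℕ) (S : Finset (Set V))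
    (h : ∀ A ⊆ S, A.Nonempty → ∃ K ∈ A, (univ.filter fun v => v ∈ N K ∧ ∃ K' ∈ A, K' ≠ K ∧
      v ∈ N K').card ≤ c2) :
    ∃ rk : Set V → ℕ, (∀ K ∈ S, ∀ K' ∈ S, rk K = rk K' → K = K') ∧
      ∀ K ∈ S, (univ.filter fun v => v ∈ N K ∧ ∃ K' ∈ S, rk K' < rk K ∧ v ∈ N K').card ≤ c2 := by
  have key : ∀ (n : ℕ) (A : Finset (Set V)), A ⊆ S → A.card = n → ∃ rk : Set V → ℕ,
      (∀ K ∈ A, ∀ K' ∈ A, rk K = rk K' → K = K') ∧ (∀ K ∈ A, rk K < n) ∧
      ∀ K ∈ A, (univ.filter fun v => v ∈ N K ∧ ∃ K' ∈ A, rk K' < rk K ∧ v ∈ N K').card ≤ c2 := by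
    intro n
    induction n with
    | zero =>
      intro A _ hA
      rw [Finset.card_eq_zero] at hA
      subst hA
      exact ⟨fun _ => 0, fun K hK => absurd hK (Finset.notMem_empty K),
        fun K hK => absurd hK (Finset.notMem_empty K), fun K hK => absurd hK (Finset.notMem_empty K)⟩
    | succ n ih =>
      intro A hAS hA
      have hne : A.Nonempty := by
        rw [← Finset.card_pos]; omega
      obtain ⟨x, hx, hd⟩ := h A hAS hne
      obtain ⟨rk, h1, h2, h3⟩ := ih (A.erase x) ((Finset.erase_subset _ _).trans hAS)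
        (by rw [Finset.card_erase_of_mem hx]; omega)
      have hup : ∀ y ∈ A, y ≠ x → Function.update rk x n y = rk y ∧ rk y < n := by
        intro y hy hyx
        exact ⟨Function.update_of_ne hyx _ _, h2 y (Finset.mem_erase.2 ⟨hyx, hy⟩)⟩
      have hself : Function.update rk x n x = n := Function.update_self _ _ _
      refine ⟨Function.update rk x n, ?_, ?_, ?_⟩
      · intro K hK K' hK' he
        by_cases hKx : K = x
        · by_cases hK'x : K' = x
          · rw [hKx, hK'x]
          · exfalso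
            rw [hKx, hself, (hup K' hK' hK'x).1] at he
            have := (hup K' hK' hK'x).2
            omega
        · by_cases hK'x : K' = x
          · exfalso
            rw [hK'x, hself, (hup K hK hKx).1] at he
            have := (hup K hK hKx).2
            omega
          · rw [(hup K hK hKx).1, (hup K' hK' hK'x).1] at he
            exact h1 K (Finset.mem_erase.2 ⟨hKx, hK⟩) K' (Finset.mem_erase.2 ⟨hK'x, hK'⟩) he
      · intro K hK
        by_cases hKx : K = x
        · rw [hKx, hself]; omega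
        · rw [(hup K hK hKx).1]
          have := (hup K hK hKx).2
          omega
      · intro K hK
        by_cases hKx : K = x
        · refine (Finset.card_le_card ?_).trans hd
          intro v hv
          rw [Finset.mem_filter] at hv ⊢
          obtain ⟨_, hv1, K', hK', hlt, hv2⟩ := hv
          refine ⟨Finset.mem_univ _, hKx ▸ hv1, K', hK', ?_, hv2⟩
          intro he
          rw [hKx, he] at hlt
          exact lt_irrefl _ hlt
        · refine (Finset.card_le_card ?_).trans (h3 K (Finset.mem_erase.2 ⟨hKx, hK⟩))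
          intro v hv
          rw [Finset.mem_filter] at hv ⊢
          obtain ⟨_, hv1, K', hK', hlt, hv2⟩ := hv
          have hK'x : K' ≠ x := by
            intro he
            rw [he, hself, (hup K hK hKx).1] at hlt
            have := (hup K hK hKx).2
            omega
          refine ⟨Finset.mem_univ _, hv1, K', Finset.mem_erase.2 ⟨hK'x, hK'⟩, ?_, hv2⟩
          rwa [(hup K' hK' hK'x).1, (hup K hK hKx).1] at hlt
  obtain ⟨rk, h1, _, h3⟩ := key S.card S (Finset.Subset.refl S) rfl
  exact ⟨rk, h1, h3⟩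

/-- Part A.
Proof. `low_cost` gives `c2`. `S` = all regions at height `h` (`univ.filter`), `exists_rank` with `N = F.N`. `β v` =
`some` (the region of least rank among the regions `K ∈ S` with `v ∈ N K`; `Finset.exists_min_image`) if there is one, otherwise
`none`. `few`: `v ∈ N K` and `β v ≠ some K`: then `β v = some K'` with `rk K' ≤ rk K`, `K' ≠ K`, so
`rk K' < rk K`, `v ∈ N K'`. `one`: `rk K ≤ rk K'` and `rk K' ≤ rk K`. -/
theorem assign (hF2 : Fact2Stmt) : AssignStmt := by
  intro l c
  obtain ⟨c2, hc2⟩ := low_cost hF2 l c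
  refine ⟨c2, ?_⟩
  intro V _ R hM5 hK34 F h
  obtain ⟨S, hS⟩ : ∃ S : Finset (Set V), ∀ K, K ∈ S ↔ R.Core h K :=
    ⟨univ.filter fun K => R.Core h K, fun K => by simp⟩
  obtain ⟨rk, hinj, hfew⟩ := exists_rank F.N c2 S (fun A hA hne =>
    hc2 V R hM5 hK34 F h A (fun K hK => (hS K).1 (hA hK)) hne)
  have hex : ∀ v : V, ∃ b : Option (Set V),
      (∀ K, b = some K → K ∈ S ∧ v ∈ F.N K ∧ ∀ K' ∈ S, v ∈ F.N K' → rk K ≤ rk K') ∧
      (∀ K, K ∈ S → v ∈ F.N K → ∃ K', b = some K') := by
    intro v
    by_cases hv : (S.filter fun K => v ∈ F.N K).Nonempty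
    · obtain ⟨K, hK, hmin⟩ := Finset.exists_min_image _ rk hv
      rw [Finset.mem_filter] at hK
      refine ⟨some K, ?_, fun _ _ _ => ⟨K, rfl⟩⟩
      intro K1 hK1
      have hKK : K = K1 := Option.some.inj hK1
      subst hKK
      exact ⟨hK.1, hK.2, fun K' hK' hv' => hmin K' (Finset.mem_filter.2 ⟨hK', hv'⟩)⟩
    · refine ⟨none, fun K hK => ?_, fun K hK hvK => ?_⟩
      · cases hK
      · exact absurd ⟨K, Finset.mem_filter.2 ⟨hK, hvK⟩⟩ hv
  choose β hβ1 hβ2 using hex
  refine ⟨⟨β, fun v K hvK => (hS K).1 (hβ1 v K hvK).1, fun v K hvK => (hβ1 v K hvK).2.1,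
    fun v K hK hvK => hβ2 v K ((hS K).2 hK) hvK, ?_, ?_⟩⟩
  · intro K hK
    refine (Finset.card_le_card ?_).trans (hfew K ((hS K).2 hK))
    intro v hv
    rw [Finset.mem_filter] at hv ⊢
    obtain ⟨_, hv1, hv2⟩ := hv
    obtain ⟨K', hK'⟩ := hβ2 v K ((hS K).2 hK) hv1
    obtain ⟨h1, h2, h3⟩ := hβ1 v K' hK'
    refine ⟨Finset.mem_univ _, hv1, K', h1, ?_, h2⟩
    have hle := h3 K ((hS K).2 hK) hv1
    refine lt_of_le_of_ne hle fun he => hv2 ?_
    rw [hK', hinj K' h1 K ((hS K).2 hK) he]
  · intro x u K K' hx hu hxK' huK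
    obtain ⟨h1, _, h3⟩ := hβ1 x K hx
    obtain ⟨h1', _, h3'⟩ := hβ1 u K' hu
    exact hinj K h1 K' h1' (le_antisymm (h3 K' h1' hxK') (h3' K h1 huK))

end Pool.Agent.H.MP_c8cc4c_co.Hub
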